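import Pool.Agent.N299.ND.Stm

/-!
# Project ND (helper299), part RK: the rank lemma
-/

set_option autoImplicit false

open scoped Topology Matrix.Norms.L2Operator

noncomputable section

namespace Pool.Agent.N618.ND

open Pool.Agent.N299 Pool.Agent.N299.ND

/-! ### operators on a finite dimensional space -/

section op

variable {E : Type} [NormedAddCommGroup E] [InnerProductSpace ℂ E] [FiniteDimensional ℂ E]

theorem exV [Nontrivial E] (Y : E →L[ℂ] E) : ∃ v : E, ‖v‖ = 1 ∧ ‖Y v‖ = ‖Y‖ := by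
  have hp : ProperSpace E := FiniteDimensional.proper ℂ E
  have hc : IsCompact (Metric.sphere (0 : E) 1) := isCompact_sphere 0 1
  have hne : (Metric.sphere (0 : E) 1).Nonempty := by
    obtain ⟨x, hx⟩ := exists_ne (0 : E)
    refine ⟨((‖x‖⁻¹ : ℝ) : ℂ) • x, ?_⟩
    rw [mem_sphere_zero_iff_norm, norm_smul, Complex.norm_real, norm_inv, norm_norm,
      inv_mul_cancel₀ (norm_ne_zero_iff.2 hx)]
  obtain ⟨v, hv, hmax⟩ := hc.exists_isMaxOn hne (Y.continuous.norm.continuousOn)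
  have hv1 : ‖v‖ = 1 := mem_sphere_zero_iff_norm.1 hv
  refine ⟨v, hv1, le_antisymm ?_ ?_⟩
  · have := Y.le_opNorm v
    rwa [hv1, mul_one] at this
  · refine Y.opNorm_le_bound (norm_nonneg _) fun x => ?_
    by_cases hx : x = 0
    · simp [hx]
    · have hxn : 0 < ‖x‖ := norm_pos_iff.2 hx
      have hmem : ((‖x‖⁻¹ : ℝ) : ℂ) • x ∈ Metric.sphere (0 : E) 1 := by
        rw [mem_sphere_zero_iff_norm, norm_smul, Complex.norm_real, norm_inv, norm_norm,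
          inv_mul_cancel₀ hxn.ne']
      have h1 : ‖Y (((‖x‖⁻¹ : ℝ) : ℂ) • x)‖ ≤ ‖Y v‖ := hmax hmem
      rw [map_smul, norm_smul, Complex.norm_real, norm_inv, norm_norm, inv_mul_le_iff₀ hxn] at h1
      rw [mul_comm]
      exact h1

theorem inner_star (Z : E →L[ℂ] E) (x y : E) : inner ℂ ((star Z) x) y = inner ℂ x (Z y) := by
  have := FiniteDimensional.complete ℂ E
  rw [ContinuousLinearMap.star_eq_adjoint, ContinuousLinearMap.adjoint_inner_left]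

theorem real_ineq {l δ : ℝ} (hδ : 0 ≤ δ) (hl : δ ≤ l) (hl1 : l ≤ 1) :
    l ^ 9 ≤ l * (l - δ) ^ 8 + 8 * δ := by
  have h0 : 0 ≤ l - δ := by linarith
  have h1 : l - δ ≤ 1 := by linarith
  have hl0 : 0 ≤ l := hδ.trans hl
  have key : ∀ i j : ℕ, l ^ i * (l - δ) ^ j ≤ 1 := fun i j =>
    mul_le_one₀ (pow_le_one₀ hl0 hl1) (pow_nonneg h0 _) (pow_le_one₀ h0 h1)
  have e : l ^ 9 - l * (l - δ) ^ 8 = δ * (l ^ 8 * (l - δ) ^ 0 + l ^ 7 * (l - δ) ^ 1 +
      l ^ 6 * (l - δ) ^ 2 + l ^ 5 * (l - δ) ^ 3 + l ^ 4 * (l - δ) ^ 4 + l ^ 3 * (l - δ) ^ 5 +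
      l ^ 2 * (l - δ) ^ 6 + l ^ 1 * (l - δ) ^ 7) := by
    ring
  have h2 := key 8 0
  have h3 := key 7 1
  have h4 := key 6 2
  have h5 := key 5 3
  have h6 := key 4 4
  have h7 := key 3 5
  have h8 := key 2 6
  have h9 := key 1 7
  have h10 : δ * (l ^ 8 * (l - δ) ^ 0 + l ^ 7 * (l - δ) ^ 1 +
      l ^ 6 * (l - δ) ^ 2 + l ^ 5 * (l - δ) ^ 3 + l ^ 4 * (l - δ) ^ 4 + l ^ 3 * (l - δ) ^ 5 +
      l ^ 2 * (l - δ) ^ 6 + l ^ 1 * (l - δ) ^ 7) ≤ δ * 8 :=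
    mul_le_mul_of_nonneg_left (by linarith) hδ
  linarith

theorem opkey [Nontrivial E] (K T Z Y W : E →L[ℂ] E) (hK : K = star Z * Z) (hT : T = star Y * Y)
    (hT1 : ‖T‖ ≤ 1) {δ : ℝ} (hδ : 0 ≤ δ) (hW : K + (δ : ℂ) • 1 - T = star W * W) :
    ‖T‖ ^ 9 ≤ ‖K ^ 8 * T‖ + 8 * δ := by
  have := FiniteDimensional.complete ℂ E
  obtain ⟨v, hv1, hv2⟩ := exV Y
  set l : ℝ := ‖T‖ with hl
  have hl0 : 0 ≤ l := norm_nonneg T
  have hlY : l = ‖Y v‖ ^ 2 := by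
    rw [hl, hT, hv2, CStarRing.norm_star_mul_self, sq]
  -- the eigenvector
  have h1 : inner ℂ (T v) v = (l : ℂ) := by
    rw [hT, mul_apply_eq_comp, inner_star, inner_self_eq_norm_sq_to_K, hlY]
    push_cast
    rfl
  have h2 : T v = (l : ℂ) • v := by
    have h3 : ‖T v - (l : ℂ) • v‖ ^ 2 ≤ 0 := by
      rw [norm_sub_sq (𝕜 := ℂ), inner_smul_right, h1, norm_smul, hv1, mul_one, Complex.norm_real]
      have h4 : ‖T v‖ ≤ l := by
        have := T.le_opNorm v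
        rwa [hv1, mul_one] at this
      have h5 : RCLike.re ((l : ℂ) * (l : ℂ)) = l * l := by
        rw [← Complex.ofReal_mul]
        rfl
      rw [h5, Real.norm_eq_abs, sq_abs]
      nlinarith [norm_nonneg (T v)]
    have h4 : ‖T v - (l : ℂ) • v‖ = 0 := by
      have h5 := sq_nonneg ‖T v - (l : ℂ) • v‖
      exact pow_eq_zero_iff (two_ne_zero) |>.1 (le_antisymm h3 h5)
    exact sub_eq_zero.1 (norm_eq_zero.1 h4)
  -- moments
  have hKs : star K = K := by rw [hK]; simp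
  have hpow : ∀ j : ℕ, star (K ^ j) = K ^ j := fun j => by rw [star_pow, hKs]
  let m : ℕ → ℝ := fun j => (inner ℂ ((K ^ j) v) v).re
  have hm2 : ∀ j : ℕ, m (2 * j) = ‖(K ^ j) v‖ ^ 2 := by
    intro j
    have h3 : inner ℂ ((K ^ (2 * j)) v) v = inner ℂ ((K ^ j) v) ((K ^ j) v) := by
      rw [two_mul, pow_add, mul_apply_eq_comp]
      nth_rewrite 1 [← hpow j]
      rw [inner_star]
    show (inner ℂ ((K ^ (2 * j)) v) v).re = _
    rw [h3]
    exact inner_self_eq_norm_sq (𝕜 := ℂ) _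
  have hcs : ∀ j : ℕ, |m j| ≤ ‖(K ^ j) v‖ := by
    intro j
    have h3 := norm_inner_le_norm (𝕜 := ℂ) ((K ^ j) v) v
    rw [hv1, mul_one] at h3
    exact (Complex.abs_re_le_norm _).trans h3
  have hsq : ∀ j : ℕ, m j ^ 2 ≤ m (2 * j) := by
    intro j
    rw [hm2, ← sq_abs]
    exact pow_le_pow_left₀ (abs_nonneg _) (hcs j) 2
  have hm1 : l - δ ≤ m 1 := by
    have h3 : (inner ℂ ((K + (δ : ℂ) • 1 - T) v) v).re = ‖W v‖ ^ 2 := by
      rw [hW, mul_apply_eq_comp, inner_star]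
      exact inner_self_eq_norm_sq (𝕜 := ℂ) _
    have h4 : inner ℂ ((K + (δ : ℂ) • 1 - T) v) v = inner ℂ (K v) v + (δ : ℂ) - (l : ℂ) := by
      rw [sub_apply, add_apply, inner_sub_left,
        inner_add_left, h1, smul_apply, one_apply_eq_self,
        inner_smul_left, Complex.conj_ofReal, inner_self_eq_norm_sq_to_K, hv1]
      simp
    rw [h4] at h3
    have h5 : m 1 = (inner ℂ (K v) v).re := by
      show (inner ℂ ((K ^ 1) v) v).re = _
      rw [pow_one]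
    rw [Complex.sub_re, Complex.add_re, Complex.ofReal_re, Complex.ofReal_re, ← h5] at h3
    nlinarith [sq_nonneg ‖W v‖]
  have hfin : l * m 8 ≤ ‖K ^ 8 * T‖ := by
    have h3 : ‖(K ^ 8 * T) v‖ ≤ ‖K ^ 8 * T‖ := by
      have := (K ^ 8 * T).le_opNorm v
      rwa [hv1, mul_one] at this
    rw [mul_apply_eq_comp, h2, map_smul, norm_smul, Complex.norm_real,
      Real.norm_eq_abs, abs_of_nonneg hl0] at h3
    exact (mul_le_mul_of_nonneg_left ((le_abs_self _).trans (hcs 8)) hl0).trans h3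
  rcases le_total δ l with hdl | hdl
  · have h0 : 0 ≤ l - δ := by linarith
    have h3 : (l - δ) ^ 8 ≤ m 8 := by
      have a1 : (l - δ) ^ 2 ≤ m 2 := (pow_le_pow_left₀ h0 hm1 2).trans (hsq 1)
      have a2 : ((l - δ) ^ 2) ^ 2 ≤ m 4 := (pow_le_pow_left₀ (by positivity) a1 2).trans (hsq 2)
      have a3 : (((l - δ) ^ 2) ^ 2) ^ 2 ≤ m 8 :=
        (pow_le_pow_left₀ (by positivity) a2 2).trans (hsq 4)
      calc (l - δ) ^ 8 = (((l - δ) ^ 2) ^ 2) ^ 2 := by ring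
        _ ≤ m 8 := a3
    have h4 := real_ineq hδ hdl hT1
    have h5 := mul_le_mul_of_nonneg_left h3 hl0
    linarith
  · have h3 : l ^ 9 ≤ l := pow_le_of_le_one hl0 hT1 (by norm_num)
    have h4 := norm_nonneg (K ^ 8 * T)
    linarith

end op

/-- the same for matrices -/
theorem matkey {n : ℕ} {k T : M n} (hk : Pos k) (hT : Pos T) (hT1 : ‖T‖ ≤ 1) {δ : ℝ} (hδ : 0 ≤ δ)
    (h : Pos (k + (δ : ℂ) • 1 - T)) : ‖T‖ ^ 9 ≤ ‖k ^ 8 * T‖ + 8 * δ := by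
  obtain ⟨z, hz⟩ := hk
  obtain ⟨y, hy⟩ := hT
  obtain ⟨w, hw⟩ := h
  let F := Matrix.toEuclideanCLM (n := Fin (n + 1)) (𝕜 := ℂ)
  have hF : ∀ x : M n, ‖F x‖ = ‖x‖ := fun x => Matrix.l2_opNorm_toEuclideanCLM x
  have h1 := opkey (F k) (F T) (F z) (F y) (F w) (by rw [hz, map_mul, map_star])
    (by rw [hy, map_mul, map_star]) (by rw [hF]; exact hT1) hδ (by
      rw [← map_star, ← map_mul, ← hw, map_sub, map_add, map_smul, map_one])
  rw [← map_pow, ← map_mul, hF, hF] at h1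
  exact h1

/-! ### estimates in a normed ring -/

section ring

variable {R : Type} [NormedRing R]

theorem nm {a b : R} {A B : ℝ} (ha : ‖a‖ ≤ A) (hb : ‖b‖ ≤ B) : ‖a * b‖ ≤ A * B :=
  (norm_mul_le a b).trans (mul_le_mul ha hb (norm_nonneg _) ((norm_nonneg _).trans ha))

theorem commE {k b0 b1 b2 b3 : R} {C δ : ℝ} (hk : ‖k‖ ≤ 1) (h0 : ‖b0‖ ≤ C) (h1 : ‖b1‖ ≤ C)
    (h2 : ‖b2‖ ≤ C) (h3 : ‖b3‖ ≤ C) (d0 : ‖k * b0 - b0 * k‖ ≤ δ) (d1 : ‖k * b1 - b1 * k‖ ≤ δ)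
    (d2 : ‖k * b2 - b2 * k‖ ≤ δ) (d3 : ‖k * b3 - b3 * k‖ ≤ δ) :
    ‖k * b0 * k * b1 * k * b2 * k * b3 * k - k ^ 5 * (b0 * b1 * b2 * b3)‖ ≤ 10 * δ * C ^ 3 := by
  have e2 : ‖k * (b0 * b1) - b0 * b1 * k‖ ≤ 2 * δ * C := by
    have e : k * (b0 * b1) - b0 * b1 * k = (k * b0 - b0 * k) * b1 + b0 * (k * b1 - b1 * k) := by
      noncomm_ring
    rw [e]
    refine (norm_add_le _ _).trans ?_
    have := nm d0 h1
    have := nm h0 d1
    linarith
  have e3 : ‖k * (b0 * b1 * b2) - b0 * b1 * b2 * k‖ ≤ 3 * δ * C ^ 2 := by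
    have e : k * (b0 * b1 * b2) - b0 * b1 * b2 * k = (k * (b0 * b1) - b0 * b1 * k) * b2 +
        b0 * b1 * (k * b2 - b2 * k) := by
      noncomm_ring
    rw [e]
    refine (norm_add_le _ _).trans ?_
    have := nm e2 h2
    have := nm (nm h0 h1) d2
    nlinarith
  have e4 : ‖k * (b0 * b1 * b2 * b3) - b0 * b1 * b2 * b3 * k‖ ≤ 4 * δ * C ^ 3 := by
    have e : k * (b0 * b1 * b2 * b3) - b0 * b1 * b2 * b3 * k =
        (k * (b0 * b1 * b2) - b0 * b1 * b2 * k) * b3 + b0 * b1 * b2 * (k * b3 - b3 * k) := by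
      noncomm_ring
    rw [e]
    refine (norm_add_le _ _).trans ?_
    have := nm e3 h3
    have := nm (nm (nm h0 h1) h2) d3
    nlinarith
  have f1 := nm (nm (nm (nm (nm (nm (nm (nm hk d0) h1) hk) h2) hk) h3) hk) hk
  have f1' := nm (nm (nm (nm (nm (nm (nm hk d0) h1) hk) h2) hk) h3) hk
  have f2 := nm (nm (nm (nm (nm (nm hk hk) e2) h2) hk) h3) hk
  have f3 := nm (nm (nm (nm (nm hk hk) hk) e3) h3) hk
  have f4 := nm (nm (nm (nm hk hk) hk) hk) e4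
  have e : k * b0 * k * b1 * k * b2 * k * b3 * k - k ^ 5 * (b0 * b1 * b2 * b3) =
      -(k * (k * b0 - b0 * k) * b1 * k * b2 * k * b3 * k) +
      -(k * k * (k * (b0 * b1) - b0 * b1 * k) * b2 * k * b3 * k) +
      -(k * k * k * (k * (b0 * b1 * b2) - b0 * b1 * b2 * k) * b3 * k) +
      -(k * k * k * k * (k * (b0 * b1 * b2 * b3) - b0 * b1 * b2 * b3 * k)) := by
    noncomm_ring
  rw [e]
  refine (norm_add_le _ _).trans ?_
  refine (add_le_add (norm_add_le _ _) le_rfl).trans ?_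
  refine (add_le_add (add_le_add (norm_add_le _ _) le_rfl) le_rfl).trans ?_
  rw [norm_neg, norm_neg, norm_neg, norm_neg]
  nlinarith

theorem compE {k p b0 b1 b2 b3 : R} {C r : ℝ} (hk : ‖k‖ ≤ 1) (hp : ‖p‖ ≤ 1) (h0 : ‖b0‖ ≤ C)
    (h1 : ‖b1‖ ≤ C) (h2 : ‖b2‖ ≤ C) (h3 : ‖b3‖ ≤ C) (c0 : ‖k * b0 - p * (k * b0)‖ ≤ r)
    (d0 : ‖b0 * k - b0 * k * p‖ ≤ r) (d1 : ‖b1 * k - b1 * k * p‖ ≤ r)
    (d2 : ‖b2 * k - b2 * k * p‖ ≤ r) (d3 : ‖b3 * k - b3 * k * p‖ ≤ r) :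
    ‖k * b0 * k * b1 * k * b2 * k * b3 * k -
      p * k * b0 * k * p * (b1 * k * p) * (b2 * k * p) * (b3 * k * p)‖ ≤ 5 * r * C ^ 3 := by
  have e : k * b0 * k * b1 * k * b2 * k * b3 * k -
      p * k * b0 * k * p * (b1 * k * p) * (b2 * k * p) * (b3 * k * p) =
      (k * b0 - p * (k * b0)) * k * b1 * k * b2 * k * b3 * k +
      p * k * (b0 * k - b0 * k * p) * b1 * k * b2 * k * b3 * k +
      p * k * b0 * k * p * (b1 * k - b1 * k * p) * b2 * k * b3 * k +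
      p * k * b0 * k * p * b1 * k * p * (b2 * k - b2 * k * p) * b3 * k +
      p * k * b0 * k * p * b1 * k * p * b2 * k * p * (b3 * k - b3 * k * p) := by
    noncomm_ring
  have f1 := nm (nm (nm (nm (nm (nm (nm c0 hk) h1) hk) h2) hk) h3) hk
  have f2 := nm (nm (nm (nm (nm (nm (nm (nm hp hk) d0) h1) hk) h2) hk) h3) hk
  have f3 := nm (nm (nm (nm (nm (nm (nm (nm (nm hp hk) h0) hk) hp) d1) h2) hk) h3) hk
  have f4 := nm (nm (nm (nm (nm (nm (nm (nm (nm (nm hp hk) h0) hk) hp) h1) hk) hp) d2) h3) hk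
  have f5 := nm (nm (nm (nm (nm (nm (nm (nm (nm (nm (nm hp hk) h0) hk) hp) h1) hk) hp) h2) hk) hp)
    d3
  rw [e]
  refine (norm_add_le _ _).trans ?_
  refine (add_le_add (norm_add_le _ _) le_rfl).trans ?_
  refine (add_le_add (add_le_add (norm_add_le _ _) le_rfl) le_rfl).trans ?_
  refine (add_le_add (add_le_add (add_le_add (norm_add_le _ _) le_rfl) le_rfl) le_rfl).trans ?_
  nlinarith

end ring

/-! ### the rank lemma -/

/-- norms of projections -/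
theorem proj_le {B : Type} [CStarAlgebra B] {p : B} (h1 : star p = p) (h2 : p * p = p) :
    ‖p‖ ≤ 1 := by
  have h3 : ‖p‖ * ‖p‖ = ‖p‖ := by
    rw [← CStarRing.norm_star_mul_self, h1, h2]
  by_contra h
  push Not at h
  nlinarith

/-- `U` is small outside `p` -/
theorem small {B : Type} [CStarAlgebra B] {T U q : B} {κ' g : ℝ} (hκ' : 0 < κ') (hg : 0 ≤ g)
    (hT : Pos T) (hU : Pos U) (hU1 : ‖U‖ ≤ 1) (hTU : Pos (T - (κ' : ℂ) • U)) (hqs : star q = q)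
    (hq1 : ‖q‖ ≤ 1) (hTq : ‖T * q‖ ≤ κ' * g ^ 2) : ‖U * q‖ ≤ g ∧ ‖q * U‖ ≤ g := by
  have hUs := hU.sa
  obtain ⟨t, ht⟩ := hT
  obtain ⟨y, hy⟩ := hU
  have hC : (0 : ℝ) ≤ 1 / κ' := by positivity
  have h1 := (hTU.conj q).smul hC
  have hcc : ((1 / κ' : ℝ) : ℂ) * (κ' : ℂ) = 1 := by
    rw [← Complex.ofReal_mul, one_div, inv_mul_cancel₀ hκ'.ne', Complex.ofReal_one]
  have e1 : ((1 / κ' : ℝ) : ℂ) • (star q * (T - (κ' : ℂ) • U) * q) =
      ((1 / κ' : ℝ) : ℂ) • (star (t * q) * (t * q)) - star (y * q) * (y * q) := by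
    rw [ht, hy, mul_sub, sub_mul, smul_sub, mul_smul_comm, smul_mul_assoc, smul_smul, hcc, one_smul,
      star_mul, star_mul]
    simp only [mul_assoc]
  rw [e1] at h1
  have h2 := norm_sq_le_of_pos hC h1
  have h3 : ‖t * q‖ ^ 2 ≤ κ' * g ^ 2 := by
    rw [sq, ← CStarRing.norm_star_mul_self, star_mul, hqs]
    have e2 : q * star t * (t * q) = q * (T * q) := by
      rw [ht]
      simp only [mul_assoc]
    rw [e2]
    refine (norm_mul_le _ _).trans ?_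
    have h4 := norm_nonneg (T * q)
    nlinarith
  have h4 : ‖y * q‖ ^ 2 ≤ g ^ 2 := by
    refine h2.trans ?_
    calc 1 / κ' * ‖t * q‖ ^ 2 ≤ 1 / κ' * (κ' * g ^ 2) := mul_le_mul_of_nonneg_left h3 hC
      _ = g ^ 2 := by field_simp
  have h5 : ‖y * q‖ ≤ g := (pow_le_pow_iff_left₀ (norm_nonneg _) hg two_ne_zero).1 h4
  have h6 : ‖star y‖ ≤ 1 := by
    rw [norm_star]
    have h7 : ‖y‖ * ‖y‖ ≤ 1 := by
      rw [← CStarRing.norm_star_mul_self, ← hy]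
      exact hU1
    by_contra h
    push Not at h
    nlinarith
  have h7 : ‖U * q‖ ≤ g := by
    have e2 : U * q = star y * (y * q) := by rw [hy, mul_assoc]
    rw [e2]
    have := nm h6 h5
    rwa [one_mul] at this
  refine ⟨h7, ?_⟩
  have e3 : q * U = star (U * q) := by rw [star_mul, hqs, hUs]
  rw [e3, norm_star]
  exact h7

theorem t_RK : S_RK := by
  intro N C κ hκ
  obtain ⟨D, hD⟩ : ∃ D : ℝ, D = |C| + 1 := ⟨_, rfl⟩
  have hD1 : 1 ≤ D := by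
    have := abs_nonneg C
    linarith
  have hCD : C ≤ D := by
    have := le_abs_self C
    linarith
  have hD0 : 0 < D := by linarith
  obtain ⟨δ, hδ⟩ : ∃ δ : ℝ, δ = κ / (2 * (8 + N * (2 + 30 * D ^ 3))) := ⟨_, rfl⟩
  obtain ⟨g, hg⟩ : ∃ g : ℝ, g = κ / (2 * (1 + 10 * N * D ^ 4)) := ⟨_, rfl⟩
  have hδ0 : 0 < δ := by rw [hδ]; positivity
  have hg0 : 0 < g := by rw [hg]; positivity
  have hδ2 : δ * (8 + N * (2 + 30 * D ^ 3)) = κ / 2 := by
    rw [hδ]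
    field_simp
  have hg2 : g * (1 + 10 * N * D ^ 4) = κ / 2 := by
    rw [hg]
    field_simp
  refine ⟨δ, hδ0, fun κ' hκ' => ⟨κ' * g ^ 2, by positivity, ?_⟩⟩
  intro n k T U p β A hk hk1 hT hT1 hU hU1 hTU hkT hps hpp hpT hTq hpM hβ hA hTs
  have hqs : star (1 - p) = 1 - p := by rw [star_sub, star_one, hps]
  have hqq : (1 - p) * (1 - p) = 1 - p := by
    rw [mul_sub, sub_mul, sub_mul, one_mul, mul_one, hpp]
    simp
  have hp1 : ‖p‖ ≤ 1 := proj_le hps hpp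
  have hq1 : ‖(1 - p : M n)‖ ≤ 1 := proj_le hqs hqq
  obtain ⟨hUq, hqU⟩ := small hκ' hg0.le hT hU hU1 hTU hqs hq1 hTq
  choose c hc using hpM
  obtain ⟨r, hr⟩ : ∃ r : ℝ, r = δ + g * D := ⟨_, rfl⟩
  have hb : ∀ t i, ‖β t i‖ ≤ D := fun t i => (hβ t i).1.trans hCD
  have hc1 : ∀ t i, ‖k * β t i - p * (k * β t i)‖ ≤ r := by
    intro t i
    have e : k * β t i - p * (k * β t i) =
        -((1 - p) * (U * β t i - k * β t i)) + (1 - p) * U * β t i := by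
      noncomm_ring
    rw [e]
    refine (norm_add_le _ _).trans ?_
    rw [norm_neg]
    have h1 := nm hq1 (hβ t i).2.1
    have h2 := nm hqU (hb t i)
    linarith
  have hc2 : ∀ t i, ‖β t i * k - β t i * k * p‖ ≤ r := by
    intro t i
    have e : β t i * k - β t i * k * p =
        -((β t i * U - β t i * k) * (1 - p)) + β t i * (U * (1 - p)) := by
      noncomm_ring
    rw [e]
    refine (norm_add_le _ _).trans ?_
    rw [norm_neg]
    have h1 := nm (hβ t i).2.2.1 hq1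
    have h2 := nm (hb t i) hUq
    linarith
  have hpp' : ∀ x, p * (p * x) = p * x := fun x => by rw [← mul_assoc, hpp]
  have hE' : ∀ b0 b1 b2 b3 : M n,
      p * k * b0 * k * p * (b1 * k * p) * (b2 * k * p) * (b3 * k * p) =
      (c (k * b0 * k) * c (b1 * k) * c (b2 * k) * c (b3 * k)) • p := by
    intro b0 b1 b2 b3
    have e : p * k * b0 * k * p * (b1 * k * p) * (b2 * k * p) * (b3 * k * p) =
        (p * (k * b0 * k) * p) * (p * (b1 * k) * p) * (p * (b2 * k) * p) *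
          (p * (b3 * k) * p) := by
      simp only [mul_assoc, hpp']
    rw [e, hc, hc, hc, hc]
    simp only [smul_mul_assoc, mul_smul_comm, smul_smul, hpp]
    congr 1
    ring
  have hs : ∀ t, ‖k ^ 8 * (A t false - A t true)‖ ≤ 2 * δ + 20 * δ * D ^ 3 + 10 * r * D ^ 3 := by
    intro t
    have a1 := commE hk1 (hb t 0) (hb t 1) (hb t 2) (hb t 3) (hβ t 0).2.2.2 (hβ t 1).2.2.2
      (hβ t 2).2.2.2 (hβ t 3).2.2.2
    have a2 := commE hk1 (hb t 0) (hb t 2) (hb t 1) (hb t 3) (hβ t 0).2.2.2 (hβ t 2).2.2.2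
      (hβ t 1).2.2.2 (hβ t 3).2.2.2
    have b1 := compE hk1 hp1 (hb t 0) (hb t 1) (hb t 2) (hb t 3) (hc1 t 0) (hc2 t 0) (hc2 t 1)
      (hc2 t 2) (hc2 t 3)
    have b2 := compE hk1 hp1 (hb t 0) (hb t 2) (hb t 1) (hb t 3) (hc1 t 0) (hc2 t 0) (hc2 t 2)
      (hc2 t 1) (hc2 t 3)
    rw [hE'] at b1 b2
    have hsc : c (k * β t 0 * k) * c (β t 2 * k) * c (β t 1 * k) * c (β t 3 * k) =
        c (k * β t 0 * k) * c (β t 1 * k) * c (β t 2 * k) * c (β t 3 * k) := by ring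
    rw [hsc] at b2
    have hk5 : ‖k ^ 5‖ ≤ 1 := by
      refine (norm_pow_le k 5).trans (pow_le_one₀ (norm_nonneg _) hk1)
    have g1 := nm hk5 (hA t).1
    have g2 := nm hk5 (hA t).2
    set X := (c (k * β t 0 * k) * c (β t 1 * k) * c (β t 2 * k) * c (β t 3 * k)) • p
    set E1 := k * β t 0 * k * β t 1 * k * β t 2 * k * β t 3 * k
    set E2 := k * β t 0 * k * β t 2 * k * β t 1 * k * β t 3 * k
    have e : k ^ 8 * (A t false - A t true) =
        -(k ^ 5 * (β t 0 * β t 1 * β t 2 * β t 3 - k ^ 3 * A t false)) +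
        k ^ 5 * (β t 0 * β t 2 * β t 1 * β t 3 - k ^ 3 * A t true) +
        -(E1 - k ^ 5 * (β t 0 * β t 1 * β t 2 * β t 3)) +
        (E2 - k ^ 5 * (β t 0 * β t 2 * β t 1 * β t 3)) + (E1 - X) + -(E2 - X) := by
      have e8 : k ^ 8 = k ^ 5 * k ^ 3 := by rw [← pow_add]
      rw [e8]
      simp only [mul_sub, ← mul_assoc]
      abel
    rw [e]
    have n1 := norm_add_le (-(k ^ 5 * (β t 0 * β t 1 * β t 2 * β t 3 - k ^ 3 * A t false)) +
        k ^ 5 * (β t 0 * β t 2 * β t 1 * β t 3 - k ^ 3 * A t true) +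
        -(E1 - k ^ 5 * (β t 0 * β t 1 * β t 2 * β t 3)) +
        (E2 - k ^ 5 * (β t 0 * β t 2 * β t 1 * β t 3)) + (E1 - X)) (-(E2 - X))
    have n2 := norm_add_le (-(k ^ 5 * (β t 0 * β t 1 * β t 2 * β t 3 - k ^ 3 * A t false)) +
        k ^ 5 * (β t 0 * β t 2 * β t 1 * β t 3 - k ^ 3 * A t true) +
        -(E1 - k ^ 5 * (β t 0 * β t 1 * β t 2 * β t 3)) +
        (E2 - k ^ 5 * (β t 0 * β t 2 * β t 1 * β t 3))) (E1 - X)
    have n3 := norm_add_le (-(k ^ 5 * (β t 0 * β t 1 * β t 2 * β t 3 - k ^ 3 * A t false)) +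
        k ^ 5 * (β t 0 * β t 2 * β t 1 * β t 3 - k ^ 3 * A t true) +
        -(E1 - k ^ 5 * (β t 0 * β t 1 * β t 2 * β t 3)))
        (E2 - k ^ 5 * (β t 0 * β t 2 * β t 1 * β t 3))
    have n4 := norm_add_le (-(k ^ 5 * (β t 0 * β t 1 * β t 2 * β t 3 - k ^ 3 * A t false)) +
        k ^ 5 * (β t 0 * β t 2 * β t 1 * β t 3 - k ^ 3 * A t true))
        (-(E1 - k ^ 5 * (β t 0 * β t 1 * β t 2 * β t 3)))
    have n5 := norm_add_le (-(k ^ 5 * (β t 0 * β t 1 * β t 2 * β t 3 - k ^ 3 * A t false)))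
        (k ^ 5 * (β t 0 * β t 2 * β t 1 * β t 3 - k ^ 3 * A t true))
    rw [norm_neg] at n1 n4 n5
    linarith
  have hk8 : ‖k ^ 8‖ ≤ 1 := (norm_pow_le k 8).trans (pow_le_one₀ (norm_nonneg _) hk1)
  have hkT8 : ‖k ^ 8 * T‖ ≤ κ + N * (2 * δ + 20 * δ * D ^ 3 + 10 * r * D ^ 3) := by
    have e : k ^ 8 * T = k ^ 8 * (T - ∑ t, (A t false - A t true)) +
        ∑ t, k ^ 8 * (A t false - A t true) := by
      rw [← Finset.mul_sum, mul_sub, sub_add_cancel]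
    rw [e]
    refine (norm_add_le _ _).trans (add_le_add ?_ ?_)
    · have := nm hk8 hTs
      rwa [one_mul] at this
    · refine (norm_sum_le _ _).trans ((Finset.sum_le_sum fun t _ => hs t).trans ?_)
      rw [Finset.sum_const, Finset.card_univ, Fintype.card_fin, nsmul_eq_mul]
  have hfin := matkey hk hT hT1 hδ0.le hkT
  have hN : (0 : ℝ) ≤ N := Nat.cast_nonneg N
  have e1 : (N : ℝ) * (2 * δ + 20 * δ * D ^ 3 + 10 * r * D ^ 3) + 8 * δ =
      δ * (8 + N * (2 + 30 * D ^ 3)) + (g * (1 + 10 * N * D ^ 4) - g) := by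
    rw [hr]
    ring
  linarith

end Pool.Agent.N618.ND

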